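import Mathlib
import Pool.Agent.H.MP_906af0_co.A

namespace Pool.Agent.Results.MP_906af0_co.Yes
open Finset

/-- the Lorentz form `x₀y₀ - ∑ xᵢyᵢ` on `ℝ^{n+1}` -/
def B {n : ℕ} (x y : Fin (n + 1) → ℝ) : ℝ := x 0 * y 0 - ∑ i : Fin n, x i.succ * y i.succ

/-- hyperbolic `n`-space, hyperboloid model -/
def H (n : ℕ) : Type := {x : Fin (n + 1) → ℝ // B x x = 1 ∧ 0 < x 0}

/-- hyperbolic distance -/
noncomputable def rho {n : ℕ} (P Q : H n) : ℝ := Real.arcosh (B P.1 Q.1)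

/-- unit tangent vector at `P` of the geodesic `τ ↦ cosh τ • P + sinh τ • u` from `P` to `Q` -/
noncomputable def u {n : ℕ} (P Q : H n) : Fin (n + 1) → ℝ :=
  (Real.sinh (rho P Q))⁻¹ • (Q.1 - Real.cosh (rho P Q) • P.1)

def Discrete {n : ℕ} (C : Set (H n)) : Prop :=
  ∀ (O : H n) (R : ℝ), {Q | Q ∈ C ∧ rho O Q ≤ R}.Finite

def Balanced {n : ℕ} (C : Set (H n)) : Prop :=
  ∀ P ∈ C, ∀ d : ℝ, 0 < d → ∀ S : Finset (H n), (∀ Q, Q ∈ S ↔ Q ∈ C ∧ rho P Q = d) →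
    ∑ Q ∈ S, u P Q = 0

def IsSymmetry {n : ℕ} (C : Set (H n)) (g : H n ≃ H n) : Prop :=
  (∀ x y, rho (g x) (g y) = rho x y) ∧ g '' C = C

def GroupBalanced {n : ℕ} (C : Set (H n)) : Prop :=
  ∀ P ∈ C, ∃ g, IsSymmetry C g ∧ {x | g x = x} = {P}

open Pool.Agent.H.MP_906af0_co in
theorem result : ∃ C : Set (H 2), Discrete C ∧ Balanced C ∧ ¬ GroupBalanced C ∧
    ∃ P ∈ C, ∃ Q, Q ≠ P ∧ ∀ g, IsSymmetry C g → g P = P → g Q = Q := by
  classical
  have BL : ∀ x y : Fin 3 → ℝ, B x y = L x y := by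
    intro x y; simp [B, L, Fin.sum_univ_two]
  have one : ∀ P Q : H 2, 1 ≤ B P.1 Q.1 := fun P Q => by
    rw [BL]; exact one_le_L (BL _ _ ▸ P.2.1) (BL _ _ ▸ Q.2.1) P.2.2 Q.2.2
  have ch : ∀ P Q : H 2, Real.cosh (rho P Q) = B P.1 Q.1 := fun P Q => Real.cosh_arcosh (one P Q)
  have NN : ∀ (P : H 2) (v : V), P.1 = emb v → N v := by
    intro P v hv
    have := P.2.1
    rw [hv, BL, L_emb] at this
    exact (N_iff v).2 (by exact_mod_cast this)
  let C : Set (H 2) := {P | ∃ v : V, (GA v ∨ GB v) ∧ P.1 = emb v}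
  let mk : (v : V) → N v → 0 < emb v 0 → H 2 := fun v h1 h2 =>
    ⟨emb v, by rw [BL, L_emb, (N_iff v).1 h1]; simp, h2⟩
  have key : ∃ P ∈ C, ∃ Q, Q ≠ P ∧ ∀ g, IsSymmetry C g → g P = P → g Q = Q := by
    let P := mk (0, 0, 0) (by simp [N]) (by simp [emb])
    let Q := mk (1, 0, -1) (by simp [N]) (by simp [emb]; norm_num)
    let R := mk (2, 2, -1) (by simp [N]) (by simp [emb]; norm_num)
    have hQ : Q ∈ C := ⟨_, Or.inr (by simp [GB]), rfl⟩
    have hR : R ∈ C := ⟨_, Or.inl (by simp [GA]), rfl⟩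
    refine ⟨P, ⟨_, Or.inl (by simp [GA]), rfl⟩, Q, ?_, ?_⟩
    · intro hh
      have := emb_inj (congrArg Subtype.val hh)
      simp at this
    · rintro g ⟨g1, g2⟩ gP
      have gB : ∀ x y, B (g x).1 (g y).1 = B x.1 y.1 := fun x y => by rw [← ch, g1, ch]
      obtain ⟨v, gv, ev⟩ : g Q ∈ C := g2 ▸ Set.mem_image_of_mem g hQ
      obtain ⟨w, gw, ew⟩ : g R ∈ C := g2 ▸ Set.mem_image_of_mem g hR
      have h1 := gB P Q
      have h2 := gB P R
      have h3 := gB Q R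
      rw [gP] at h1 h2
      rw [ev] at h1 h3
      rw [ew] at h2 h3
      simp only [P, Q, R, mk, BL, L_emb, Int.cast_inj] at h1 h2 h3
      have := rigid (NN _ _ ev) (NN _ _ ew) gv gw h1 h2 h3
      apply Subtype.ext
      rw [ev, this]
  refine ⟨C, ?_, ?_, ?_, key⟩
  · intro O R
    apply Set.Finite.of_finite_image (f := Subtype.val) _ Subtype.val_injective.injOn
    apply ((fin_box (2 * O.1 0 * Real.cosh R)).image emb).subset
    rintro _ ⟨Q, ⟨⟨v, _, ev⟩, hR⟩, rfl⟩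
    refine ⟨v, ⟨NN Q v ev, ev ▸ Q.2.2, ?_⟩, ev.symm⟩
    have h1 := t_le (BL _ _ ▸ O.2.1) (BL _ _ ▸ Q.2.1) O.2.2 Q.2.2
    have h0 : 0 ≤ rho O Q := Real.arcosh_nonneg (one O Q)
    have h2 : Real.cosh (rho O Q) ≤ Real.cosh R := by
      rw [Real.cosh_le_cosh, abs_of_nonneg h0, abs_of_nonneg (h0.trans hR)]; exact hR
    rw [ch, BL] at h2
    rw [← ev]
    exact h1.trans (mul_le_mul_of_nonneg_left h2 (by linarith [O.2.2]))
  · rintro P ⟨p, _, ep⟩ d hd S hS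
    have hc : ∀ Q ∈ S, ∃ v : V, (GA v ∨ GB v) ∧ Q.1 = emb v := fun Q hQ => ((hS Q).1 hQ).1
    choose! c hc1 hc2 using hc
    have hb := bal (NN P p ep) (Real.cosh d) (S.image c) (by
      intro v
      rw [mem_image]
      constructor
      · rintro ⟨Q, hQ, rfl⟩
        refine ⟨NN Q _ (hc2 Q hQ), hc1 Q hQ, ?_⟩
        rw [← ((hS Q).1 hQ).2, ch, ep, hc2 Q hQ, BL, L_emb]
      · rintro ⟨h1, h2, h3⟩
        have hv : L (emb v) (emb v) = 1 := by rw [L_emb, (N_iff v).1 h1]; simp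
        have hpos : 0 < emb v 0 := pos_of_L (BL _ _ ▸ P.2.1) hv P.2.2 (by
          rw [ep, L_emb, h3]; exact Real.cosh_pos d)
        have hm : mk v h1 hpos ∈ S := by
          rw [hS]
          refine ⟨⟨v, h2, rfl⟩, ?_⟩
          simp only [rho, mk, ep, BL, L_emb, h3]
          exact Real.arcosh_cosh hd.le
        exact ⟨_, hm, (emb_inj (hc2 _ hm)).symm⟩)
    have hinj : Set.InjOn c (S : Set (H 2)) := by
      intro a ha a' ha' hab
      apply Subtype.ext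
      rw [hc2 a ha, hc2 a' ha', hab]
    rw [sum_image hinj] at hb
    have : ∑ Q ∈ S, u P Q = (Real.sinh d)⁻¹ • ∑ Q ∈ S, (emb (c Q) - Real.cosh d • emb p) := by
      rw [smul_sum]
      refine sum_congr rfl fun Q hQ => ?_
      rw [u, ((hS Q).1 hQ).2, ← hc2 Q hQ, ep]
    rw [this, hb, smul_zero]
  · intro hG
    obtain ⟨P, hP, Q, hQ, hfix⟩ := key
    obtain ⟨g, g1, g2⟩ := hG P hP
    have h1 : g P = P := by
      have : P ∈ {x | g x = x} := by rw [g2]; rfl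
      exact this
    have h2 : Q ∈ {x | g x = x} := hfix g g1 h1
    rw [g2] at h2
    exact hQ h2

end Pool.Agent.Results.MP_906af0_co.Yes
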